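import Pool.Agent.Q191.QR.Main

/-!
# Simultaneous per-bit decoding of a quantum random access code fails in general

There is an `(n, m, p)`-QRAC for which every POVM with outcomes in `{0,1}^n` has, for some string
`x` and some bit `i`, an error probability larger than `2 p (1 - p)`.
-/

set_option autoImplicit false

open Pool.Agent.Q191.QR

namespace Pool.Agent.Results.MP_49fc99_mp.PerBitDecodingFails

theorem result : ∃ n m : ℕ, 1 ≤ n ∧ 1 ≤ m ∧ ∃ p : ℝ, 1 / 2 < p ∧ p ≤ 1 ∧
    ∃ ρ : (Fin n → Bool) → Op m, IsQRAC n m p ρ ∧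
      ∀ Q : (Fin n → Bool) → Op m, IsPOVM Q →
        ∃ (x : Fin n → Bool) (i : Fin n), 2 * p * (1 - p) < errProb Q (ρ x) i (x i) :=
  main

end Pool.Agent.Results.MP_49fc99_mp.PerBitDecodingFails
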